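import Pool.Agent.H37.CSZ.Stmts

set_option autoImplicit false

namespace Pool.CND

open Finset Matrix

namespace ZzbH18

variable {F : Type} [Field F] [CharP F 2] (φ : F →+* F)

/-- the entries of an element of the Borel group -/
theorem entries (g : Sz φ) (h1 : g.1.1 1 0 = 0) (h2 : g.1.1 2 0 = 0) (h3 : g.1.1 3 0 = 0) :
    g.1.1 0 0 ≠ 0 ∧ g.1.1 0 0 * g.1.1 3 3 = 1 ∧ g.1.1 2 1 = 0 ∧ g.1.1 3 1 = 0 ∧ g.1.1 3 2 = 0 ∧
    g.1.1 0 0 * g.1.1 1 1 = φ (g.1.1 0 0) ∧ g.1.1 1 1 * g.1.1 2 2 = 1 ∧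
    g.1.1 0 0 * g.1.1 1 2 = φ (g.1.1 0 1) ∧
    g.1.1 2 3 * φ (g.1.1 0 0) = g.1.1 0 1 ∧
    g.1.1 1 3 * g.1.1 0 0 ^ 2 = g.1.1 0 2 * φ (g.1.1 0 0) + g.1.1 0 1 * φ (g.1.1 0 1) ∧
    g.1.1 0 3 * g.1.1 1 1 = φ (g.1.1 0 2) + g.1.1 0 1 * g.1.1 1 3 := by
  obtain ⟨hJ, hm⟩ := g.2
  have two : (2 : F) = 0 := CharTwo.two_eq_zero
  generalize g.1.1 = M at *
  have c01 := congrFun (congrFun hJ 0) 1
  have c02 := congrFun (congrFun hJ 0) 2
  have c03 := congrFun (congrFun hJ 0) 3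
  have c12 := congrFun (congrFun hJ 1) 2
  have c13 := congrFun (congrFun hJ 1) 3
  have c23 := congrFun (congrFun hJ 2) 3
  have m00 := congrFun (congrFun hm 0) 0
  have m01 := congrFun (congrFun hm 0) 1
  have m02 := congrFun (congrFun hm 0) 2
  have m10 := congrFun (congrFun hm 1) 0
  simp [Matrix.mul_apply, Fin.sum_univ_four, J4, h1, h2, h3] at c01 c02 c03 c12 c13 c23
  simp [mnr, pr1, pr2, h1, h2] at m00 m01 m02 m10
  have a0 : M 0 0 ≠ 0 := by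
    intro h
    rw [h] at c03
    simp at c03
  have e31 : M 3 1 = 0 := by tauto
  have e32 : M 3 2 = 0 := by tauto
  have e21 : M 2 1 = 0 := by tauto
  rw [e31, e21] at c12 c13
  rw [e32] at c12 c23
  simp at c12 c13 c23
  have e23 : M 2 3 * φ (M 0 0) = M 0 1 := by
    linear_combination (-(M 2 3)) * m00 + M 0 0 * c13 - M 0 1 * c03 + (-(M 0 1)) * two
  refine ⟨a0, c03, e21, e31, e32, m00, c12, m01, e23, ?_, ?_⟩
  · linear_combination M 0 0 ^ 2 * M 1 1 * c23 - M 0 0 ^ 2 * M 1 3 * c12 -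
      M 2 3 * M 0 0 * M 1 1 * m01 - M 2 3 * φ (M 0 1) * m00 - φ (M 0 1) * e23 -
      M 0 2 * M 0 0 * M 1 1 * c03 - M 0 2 * m00 - (M 0 2 * φ (M 0 0) + M 0 1 * φ (M 0 1)) * two
  · linear_combination (-1) * m02 - φ (M 0 2) * two

/-- an element of the Borel group is determined by three entries -/
theorem inj (g h : Sz φ) (h1 : g.1.1 1 0 = 0) (h2 : g.1.1 2 0 = 0) (h3 : g.1.1 3 0 = 0)
    (k1 : h.1.1 1 0 = 0) (k2 : h.1.1 2 0 = 0) (k3 : h.1.1 3 0 = 0)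
    (e0 : g.1.1 0 0 = h.1.1 0 0) (e1 : g.1.1 0 1 = h.1.1 0 1) (e2 : g.1.1 0 2 = h.1.1 0 2) :
    g = h := by
  obtain ⟨a1, a2, a3, a4, a5, a6, a7, a8, a9, a10, a11⟩ := entries φ g h1 h2 h3
  obtain ⟨b1, b2, b3, b4, b5, b6, b7, b8, b9, b10, b11⟩ := entries φ h k1 k2 k3
  apply Subtype.ext
  apply Subtype.ext
  generalize g.1.1 = M at *
  generalize h.1.1 = N at *
  have hφ : φ (N 0 0) ≠ 0 := by
    intro h
    exact b1 ((map_eq_zero φ).1 h)
  have f33 : M 3 3 = N 3 3 := by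
    apply mul_left_cancel₀ b1
    rw [b2, ← e0, a2]
  have f11 : M 1 1 = N 1 1 := by
    apply mul_left_cancel₀ b1
    rw [b6, ← e0, a6]
  have n11 : N 1 1 ≠ 0 := by
    intro h
    rw [h, zero_mul] at b7
    exact zero_ne_one b7
  have f22 : M 2 2 = N 2 2 := by
    apply mul_left_cancel₀ n11
    rw [b7, ← f11, a7]
  have f12 : M 1 2 = N 1 2 := by
    apply mul_left_cancel₀ b1
    rw [b8, ← e0, a8, e1]
  have f23 : M 2 3 = N 2 3 := by
    apply mul_right_cancel₀ hφ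
    rw [b9, ← e0, a9, e1]
  have f13 : M 1 3 = N 1 3 := by
    apply mul_right_cancel₀ (pow_ne_zero 2 b1)
    rw [b10, ← e0, a10, e1, e2]
  have f03 : M 0 3 = N 0 3 := by
    apply mul_right_cancel₀ n11
    rw [b11, ← f11, a11, e1, e2, f13]
  ext i j
  fin_cases i <;> fin_cases j <;> simp [*]

/-- the matrix -/
def mat (a x y : F) : Matrix (Fin 4) (Fin 4) F :=
  !![a, x, y, φ y * a / φ a + x * y / a + φ x * x ^ 2 / (a * φ a);
    0, φ a / a, φ x / a, (y * φ a + φ x * x) / a ^ 2;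
    0, 0, a / φ a, x / φ a;
    0, 0, 0, 1 / a]

omit [CharP F 2] in
theorem det_mat (a x y : F) (ha : a ≠ 0) : (mat φ a x y).det = 1 := by
  have h : φ a ≠ 0 := fun h => ha ((map_eq_zero φ).1 h)
  have e : (mat φ a x y).det = ∏ i, mat φ a x y i i := by
    apply Matrix.det_of_isUpperTriangular
    intro i j hij
    fin_cases i <;> fin_cases j <;> simp_all [mat]
  rw [e, Fin.prod_univ_four]
  simp [mat]
  field_simp

theorem mat_J (a x y : F) (ha : a ≠ 0) : (mat φ a x y)ᵀ * J4 F * mat φ a x y = J4 F := by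
  have h : φ a ≠ 0 := fun h => ha ((map_eq_zero φ).1 h)
  have two : (2 : F) = 0 := CharTwo.two_eq_zero
  ext i j
  simp only [Matrix.mul_apply, Fin.sum_univ_four, Matrix.transpose_apply]
  fin_cases i <;> fin_cases j <;> simp [mat, J4] <;> field_simp <;> try ring_nf
  · linear_combination x * two
  · linear_combination φ x * two
  · linear_combination (φ a * y + φ x * x) * two
  · linear_combination x * two
  · linear_combination (y * φ a + x * φ x) * two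
  · linear_combination (a ^ 2 * φ y + 2 * (φ a * x * y) + 2 * (x ^ 2 * φ x)) * two

theorem mat_m (hφ : ∀ a, φ (φ a) = a ^ 2) (a x y : F) (ha : a ≠ 0) :
    mnr (mat φ a x y) = (mat φ a x y).map φ := by
  have h : φ a ≠ 0 := fun h => ha ((map_eq_zero φ).1 h)
  have two : (2 : F) = 0 := CharTwo.two_eq_zero
  ext i j
  simp only [mnr, Matrix.map_apply]
  fin_cases i <;> fin_cases j <;> simp [mat, pr1, pr2, hφ] <;> field_simp <;> try ring_nf
  · linear_combination (-(a ^ 2 * φ y)) * two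
  · linear_combination (-(φ x * a ^ 2 * φ y) - φ x ^ 2 * x ^ 2) * two
  · linear_combination (-(x ^ 2 * φ x) - φ y * a ^ 2) * two

/-- the element -/
def el (hφ : ∀ a, φ (φ a) = a ^ 2) (a x y : F) (ha : a ≠ 0) : Sz φ :=
  ⟨⟨mat φ a x y, det_mat φ a x y ha⟩, mat_J φ a x y ha, mat_m φ hφ a x y ha⟩

theorem el_val (hφ : ∀ a, φ (φ a) = a ^ 2) (a x y : F) (ha : a ≠ 0) :
    (el φ hφ a x y ha).1.1 = mat φ a x y := rfl

theorem el_b (hφ : ∀ a, φ (φ a) = a ^ 2) (a x y : F) (ha : a ≠ 0) :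
    (el φ hφ a x y ha).1.1 1 0 = 0 ∧ (el φ hφ a x y ha).1.1 2 0 = 0 ∧
    (el φ hφ a x y ha).1.1 3 0 = 0 ∧ (el φ hφ a x y ha).1.1 0 0 = a ∧
    (el φ hφ a x y ha).1.1 0 1 = x ∧ (el φ hφ a x y ha).1.1 0 2 = y := by
  rw [el_val]
  simp [mat]

omit [CharP F 2] in
theorem phi_phi {n q f : ℕ} (hf : f = 2 ^ (n + 1)) (hq : q = 2 ^ (2 * n + 1))
    (hc : Nat.card F = q) (hφ : ∀ a, φ a = a ^ f) (a : F) : φ (φ a) = a ^ 2 := by
  have hfin : Finite F := by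
    apply Nat.finite_of_card_ne_zero
    rw [hc, hq]
    exact (pow_pos (by norm_num) _).ne'
  have hft : Fintype F := Fintype.ofFinite F
  have h1 : a ^ q = a := by
    rw [← hc, Nat.card_eq_fintype_card]
    exact FiniteField.pow_card a
  rw [hφ a, hφ, ← pow_mul]
  have h2 : f * f = q * 2 := by
    rw [hf, hq]
    ring
  rw [h2, pow_mul, h1]

end ZzbH18

open ZzbH18 in
theorem zzb_thm : S_ZZB := by
  intro n q f F _ _ φ hn hf hq hc hφ0
  have hφ : ∀ a, φ (φ a) = a ^ 2 := phi_phi φ hf hq hc hφ0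
  have hq0 : q ≠ 0 := by
    rw [hq]
    exact (pow_pos (by norm_num) _).ne'
  have hfin : Finite F := by
    apply Nat.finite_of_card_ne_zero
    rw [hc]
    exact hq0
  refine ⟨?_, ?_, ?_, ?_⟩
  · intro g h1 h2 h3
    obtain ⟨a1, a2, a3, a4, a5, a6, a7, a8, a9, a10, a11⟩ := entries φ g h1 h2 h3
    refine ⟨a3, a4, a5, a1, a2, ?_⟩
    intro h0
    rw [h0, map_one] at a6 a9 a10
    rw [h0] at a8
    rw [one_mul] at a6 a8
    rw [a6, one_mul] at a7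
    rw [mul_one] at a9 a10
    rw [one_pow, mul_one] at a10
    refine ⟨a6, a7, a9.symm, a8, a10, ?_⟩
    intro h01 h02
    apply inj φ g 1 h1 h2 h3
    · rfl
    · rfl
    · rfl
    · exact h0
    · exact h01
    · exact h02
  · have e : Nat.card {g : Sz φ // g.1.1 1 0 = 0 ∧ g.1.1 2 0 = 0 ∧ g.1.1 3 0 = 0} =
        Nat.card (F × F × Fˣ) := by
      symm
      apply Nat.card_congr
      apply Equiv.ofBijective (fun p : F × F × Fˣ =>
        (⟨el φ hφ p.2.2 p.1 p.2.1 p.2.2.ne_zero, (el_b φ hφ p.2.2 p.1 p.2.1 p.2.2.ne_zero).1,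
          (el_b φ hφ p.2.2 p.1 p.2.1 p.2.2.ne_zero).2.1,
          (el_b φ hφ p.2.2 p.1 p.2.1 p.2.2.ne_zero).2.2.1⟩ :
          {g : Sz φ // g.1.1 1 0 = 0 ∧ g.1.1 2 0 = 0 ∧ g.1.1 3 0 = 0}))
      constructor
      · rintro ⟨x, y, a⟩ ⟨x', y', a'⟩ h
        have h' := congrArg Subtype.val h
        simp only at h'
        obtain ⟨-, -, -, b1, b2, b3⟩ := el_b φ hφ a x y a.ne_zero
        obtain ⟨-, -, -, c1, c2, c3⟩ := el_b φ hφ a' x' y' a'.ne_zero
        rw [h'] at b1 b2 b3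
        have d1 : a = a' := Units.ext (b1.symm.trans c1)
        have d2 : x = x' := b2.symm.trans c2
        have d3 : y = y' := b3.symm.trans c3
        rw [d1, d2, d3]
      · rintro ⟨g, h1, h2, h3⟩
        have h0 := (entries φ g h1 h2 h3).1
        refine ⟨⟨g.1.1 0 1, g.1.1 0 2, Units.mk0 (g.1.1 0 0) h0⟩, ?_⟩
        apply Subtype.ext
        obtain ⟨c1, c2, c3, b1, b2, b3⟩ := el_b φ hφ (g.1.1 0 0) (g.1.1 0 1) (g.1.1 0 2) h0
        exact inj φ _ g c1 c2 c3 h1 h2 h3 b1 b2 b3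
    rw [e, Nat.card_prod, Nat.card_prod, Nat.card_units, hc]
    ring
  · have e : Nat.card {g : Sz φ // g.1.1 1 0 = 0 ∧ g.1.1 2 0 = 0 ∧ g.1.1 3 0 = 0 ∧
        g.1.1 0 0 = 1} = Nat.card (F × F) := by
      symm
      apply Nat.card_congr
      apply Equiv.ofBijective (fun p : F × F =>
        (⟨el φ hφ 1 p.1 p.2 one_ne_zero, (el_b φ hφ 1 p.1 p.2 one_ne_zero).1,
          (el_b φ hφ 1 p.1 p.2 one_ne_zero).2.1, (el_b φ hφ 1 p.1 p.2 one_ne_zero).2.2.1,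
          (el_b φ hφ 1 p.1 p.2 one_ne_zero).2.2.2.1⟩ :
          {g : Sz φ // g.1.1 1 0 = 0 ∧ g.1.1 2 0 = 0 ∧ g.1.1 3 0 = 0 ∧ g.1.1 0 0 = 1}))
      constructor
      · rintro ⟨x, y⟩ ⟨x', y'⟩ h
        have h' := congrArg Subtype.val h
        simp only at h'
        obtain ⟨-, -, -, -, b2, b3⟩ := el_b φ hφ 1 x y one_ne_zero
        obtain ⟨-, -, -, -, c2, c3⟩ := el_b φ hφ 1 x' y' one_ne_zero
        rw [h'] at b2 b3
        have d2 : x = x' := b2.symm.trans c2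
        have d3 : y = y' := b3.symm.trans c3
        rw [d2, d3]
      · rintro ⟨g, h1, h2, h3, h0⟩
        refine ⟨⟨g.1.1 0 1, g.1.1 0 2⟩, ?_⟩
        apply Subtype.ext
        obtain ⟨c1, c2, c3, b1, b2, b3⟩ := el_b φ hφ 1 (g.1.1 0 1) (g.1.1 0 2) one_ne_zero
        exact inj φ _ g c1 c2 c3 h1 h2 h3 (b1.trans h0.symm) b2 b3
    rw [e, Nat.card_prod, hc]
    ring
  · have e : Nat.card {g : Sz φ // g.1.1 1 0 = 0 ∧ g.1.1 2 0 = 0 ∧ g.1.1 3 0 = 0 ∧
        g.1.1 0 0 = 1 ∧ g.1.1 0 1 = 0} = Nat.card F := by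
      symm
      apply Nat.card_congr
      apply Equiv.ofBijective (fun y : F =>
        (⟨el φ hφ 1 0 y one_ne_zero, (el_b φ hφ 1 0 y one_ne_zero).1,
          (el_b φ hφ 1 0 y one_ne_zero).2.1, (el_b φ hφ 1 0 y one_ne_zero).2.2.1,
          (el_b φ hφ 1 0 y one_ne_zero).2.2.2.1, (el_b φ hφ 1 0 y one_ne_zero).2.2.2.2.1⟩ :
          {g : Sz φ // g.1.1 1 0 = 0 ∧ g.1.1 2 0 = 0 ∧ g.1.1 3 0 = 0 ∧ g.1.1 0 0 = 1 ∧
            g.1.1 0 1 = 0}))
      constructor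
      · intro y y' h
        have h' := congrArg Subtype.val h
        simp only at h'
        obtain ⟨-, -, -, -, b2, b3⟩ := el_b φ hφ 1 0 y one_ne_zero
        obtain ⟨-, -, -, -, c2, c3⟩ := el_b φ hφ 1 0 y' one_ne_zero
        rw [h'] at b3
        exact b3.symm.trans c3
      · rintro ⟨g, h1, h2, h3, h0, h01⟩
        refine ⟨g.1.1 0 2, ?_⟩
        apply Subtype.ext
        obtain ⟨c1, c2, c3, b1, b2, b3⟩ := el_b φ hφ 1 0 (g.1.1 0 2) one_ne_zero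
        exact inj φ _ g c1 c2 c3 h1 h2 h3 (b1.trans h0.symm) (b2.trans h01.symm) b3
    rw [e, hc]

end Pool.CND
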